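import Pool.Agent.W495.DC.Core

/-!
# Deligne's conjecture for potentially CM motives

A motive over `ℚ` is potentially CM if it belongs to the tensor category generated by the Artin
motives and by the abelian varieties over `ℚ` that have complex multiplication over `ℚ̄`; examples are
the tensor products, symmetric and exterior powers of such abelian varieties, their twists by Artin
motives of any dimension, and all their direct summands. The coefficients are an arbitrary number
field.

Such a motive is, in the Grothendieck group and after an extension of the coefficients, an integral
combination of motives attached to algebraic Hecke characters of number fields (Brauer's theorem for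
the representations of the Taniyama group). Deligne's conjecture is known for these (Blasius, Harder).
Negative multiplicities do no harm outside the central point, because the values do not vanish there.
The coefficient in the larger field lies in the field `E` of coefficients of the motive, because its
conjugates depend only on the embedding of `E`.
-/

namespace Pool.Agent.Results.MP_100fe7_nt.PotentiallyCM

open Pool.Agent.W495.DC

/-- Deligne's conjecture for a potentially CM motive `M` of weight `w` over `ℚ`, with coefficients in
any number field `E`, without classes of type `(w/2, w/2)`, at every critical integer `m` with
`2 m ≠ w + 1` (at every critical integer, if `w` is even). -/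
theorem result (T : Motives) (hT : IsMotives T) (hB : HasBrauer T) (E : Type) [Field E]
    [NumberField E] (M : T.Mot E) (hM : T.IsPotCM M) (hne : (T.inv M).types.Nonempty)
    (h0 : (T.inv M).NoMiddle) (m : ℤ) (hm : (T.inv M).IsCritical m) :
    (2 * m ≠ (T.inv M).w + 1 → (T.inv M).Deligne m) ∧ (Even (T.inv M).w → (T.inv M).Deligne m) :=
  ⟨main hT hB M hM hne h0 m hm, fun hw => main hT hB M hM hne h0 m hm (by
    obtain ⟨k, hk⟩ := hw
    omega)⟩

end Pool.Agent.Results.MP_100fe7_nt.PotentiallyCM
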