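import Pool.Agent.W187.CV.Value
import Pool.Agent.W187.CV.All

/-!
# Values of motivic L-functions at all real points from absolutely convergent sums over prime powers

Let `M` be a motive over `ℚ` with coefficients in the number field `E`, `t_p(j) ∈ E` the trace of the `j`-th
power of Frobenius on the inertia invariants at `p`, and for `τ : E → ℂ` let `F_τ` be the continuation of
`L_τ(s, M) = exp ∑_p ∑_{j ≥ 1} τ(t_p(j)) / (j p^{js})`. Only the bound `|τ(t_p(j))| ≤ D p^{Aj}` for some `A`,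
`D` and the meromorphy of the `F_τ` at the REAL points `≥ s₀` are used; nothing is assumed on zeros, poles
or growth off the real line, and there is no functional equation.

For the rotated kernel `K(u) = e^{icu} / Γ(1 + u)`, `c > π/2`, the sums

`S_τ(X) = ∑_p ∑_{j ≥ 1} τ(t_p(j)) / (j p^{j s₀}) K(j log p / log X)`

converge absolutely for every real `s₀`, also far outside the half plane of convergence, and

`exp(S_τ(X)) (e^{-Λ} log X)^r = F_τ^*(s₀) + O(1 / log X)`,

`r` the order and `F_τ^*(s₀)` the leading coefficient of `F_τ` at `s₀`, `Λ = ∫_0^∞ (e^{-t} - K(t)) dt/t`. If the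
`F_τ` are holomorphic at `s₀` this reads `exp(S_τ(X)) = L_τ(s₀, M) + O(1 / log X)`, so for a critical integer
`s₀ = m` Deligne's conjecture `L(m, M) ∼ (2πi)^{m n^ε} c^ε(M)` is a statement on the limit of `exp S_τ(X)`, that is on
the traces of Frobenius.
-/

set_option autoImplicit false

namespace Pool.Agent.Results.MP_100fe7_nt.ValuesFromTraces

open Pool.Agent.W187.UR Pool.Agent.W187.CV Filter Topology Asymptotics

/-- **Values of motivic L-functions from the traces of Frobenius, with no hypothesis on zeros.** -/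
theorem result (E : Type) [Field E] (t : ℕ → ℕ → E) (A D : ℝ)
    (ht : ∀ (τ : E →+* ℂ) (p j : ℕ), p.Prime → 1 ≤ j → ‖τ (t p j)‖ ≤ D * (p : ℝ) ^ (A * j))
    (F : (E →+* ℂ) → ℂ → ℂ)
    (hF : ∀ (τ : E →+* ℂ) (s : ℂ), A + 1 < s.re →
      F τ s = Complex.exp (logL (fun p j => τ (t p j)) s))
    (s₀ : ℝ) (hm : ∀ (τ : E →+* ℂ) (x : ℝ), s₀ ≤ x → MeromorphicAt (F τ) x) :
    (∀ (τ : E →+* ℂ) (c X : ℝ), 1 < X →
      Summable fun x => ‖rterm (fun p j => τ (t p j)) s₀ c X x‖) ∧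
    (∀ τ : E →+* ℂ, ∃ r : ℤ, meromorphicOrderAt (F τ) s₀ = r ∧
      meromorphicTrailingCoeffAt (F τ) s₀ ≠ 0 ∧
      ∀ c : ℝ, Real.pi / 2 < c →
        (fun X : ℝ => Complex.exp (rsum (fun p j => τ (t p j)) s₀ c X) *
          (Complex.exp (-Lam c) * Real.log X) ^ r - meromorphicTrailingCoeffAt (F τ) s₀) =O[atTop]
          (fun X : ℝ => 1 / Real.log X)) ∧
    ((∀ τ : E →+* ℂ, AnalyticAt ℂ (F τ) s₀) → ∀ c : ℝ, Real.pi / 2 < c →
      (∀ τ : E →+* ℂ, (fun X : ℝ => Complex.exp (rsum (fun p j => τ (t p j)) s₀ c X) -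
        F τ s₀) =O[atTop] (fun X : ℝ => 1 / Real.log X)) ∧
      ∀ P : (E →+* ℂ) → ℂ, (∃ e : E, ∀ τ, F τ s₀ = τ e * P τ) ↔
        ∃ e : E, ∀ τ : E →+* ℂ, Tendsto (fun X : ℝ =>
          Complex.exp (rsum (fun p j => τ (t p j)) s₀ c X)) atTop (𝓝 (τ e * P τ))) := by
  have hPT : S_POINT := point_all
  have hA : S_ABS := Pool.Agent.W125.CV.absc
  have hP : S_PRIMES := Pool.Agent.W83.CV.primes
  have hlogc : Tendsto (fun X : ℝ => 1 / Real.log X) atTop (𝓝 0) :=
    tendsto_const_nhds.div_atTop Real.tendsto_log_atTop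
  have hall : ∀ τ : E →+* ℂ, ∃ r : ℤ, meromorphicOrderAt (F τ) s₀ = r ∧
      meromorphicTrailingCoeffAt (F τ) s₀ ≠ 0 ∧
      ∀ c : ℝ, Real.pi / 2 < c →
        (fun T : ℝ => Complex.exp (rsum (fun p j => τ (t p j)) s₀ c (Real.exp T)) *
          (Complex.exp (-Lam c) * (T : ℂ)) ^ r - meromorphicTrailingCoeffAt (F τ) s₀) =O[atTop]
          (fun T : ℝ => 1 / T) := fun τ =>
    law_q hPT hP (t := fun p j => τ (t p j)) (A := A) (D := D) (fun p j hp hj => ht τ p j hp hj)
      (F := F τ) (fun s hs => hF τ s hs) (s₀ := s₀) (fun x hx => hm τ x hx)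
  refine ⟨fun τ c X hX => rterm_summable hP hA (fun p j hp hj => ht τ p j hp hj) s₀ c hX,
    fun τ => ?_, fun hana c hc => ?_⟩
  · obtain ⟨r, h1, h2, h3⟩ := hall τ
    refine ⟨r, h1, h2, fun c hc => ?_⟩
    refine (to_log (h3 c hc)).congr' ?_ EventuallyEq.rfl
    filter_upwards [eventually_gt_atTop 0] with X hX
    simp only [Real.exp_log hX]
  · have hv : ∀ τ : E →+* ℂ, (fun X : ℝ => Complex.exp (rsum (fun p j => τ (t p j)) s₀ c X) -
        F τ s₀) =O[atTop] (fun X : ℝ => 1 / Real.log X) := by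
      intro τ
      obtain ⟨r, h1, h2, h3⟩ := hall τ
      refine (to_log (value_form (hana τ) h1 (h3 c hc))).congr' ?_ EventuallyEq.rfl
      filter_upwards [eventually_gt_atTop 0] with X hX
      simp only [Real.exp_log hX]
    have hlim : ∀ τ : E →+* ℂ, Tendsto (fun X : ℝ =>
        Complex.exp (rsum (fun p j => τ (t p j)) s₀ c X)) atTop (𝓝 (F τ s₀)) := fun τ =>
      tendsto_sub_nhds_zero_iff.1 ((hv τ).trans_tendsto hlogc)
    refine ⟨hv, fun P => ⟨?_, ?_⟩⟩
    · rintro ⟨e, he⟩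
      refine ⟨e, fun τ => ?_⟩
      rw [← he τ]
      exact hlim τ
    · rintro ⟨e, he⟩
      exact ⟨e, fun τ => tendsto_nhds_unique (hlim τ) (he τ)⟩

end Pool.Agent.Results.MP_100fe7_nt.ValuesFromTraces
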